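import Pool.Agent.MP_16de82_co.lg.Zm

/-! The induction on the rank for the marked complex and the main theorem. -/

set_option autoImplicit false

namespace Pool.Agent.MP_16de82_co.lg

open Finset MvPolynomial Submodule Classical
open Pool.Agent.MP_16de82_co.h21 (uu uu_apply lp sp Hy lp_cons lp_add lp_zero sp_cons mem_sp sp_le
  closed_one closed_hy rep mem_rep lp_rep descend split_map ST)

variable {K : Type} [Field K] {n p : ℕ}

variable {e : Fin n → K} {W U : Submodule K (Fin n → K)} {X : Multiset (Fin n → K)}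
  {T J : Finset (Fin n)} {w : Fin n → Fin n → K} {j : ℕ} {d : ℤ}

/-- The indices of the coordinate vectors in `W`. -/
noncomputable def ix (W : Submodule K (Fin n → K)) : Finset (Fin n) := univ.filter (xx K · ∈ W)

lemma mem_ix {i : Fin n} : i ∈ ix W ↔ xx K i ∈ W := by simp [ix]

lemma good_xx (h : h21.Good T W w) {i : Fin n} (hi : xx K i ∈ W) : i ∈ T ∧ w i = xx K i := by
  have e := h.gen _ hi
  have hT : i ∈ T := by
    by_contra hc
    rw [sum_eq_zero fun l hl => by
      rw [xx, Pi.single_eq_of_ne fun e' : l = i => hc (e' ▸ hl), zero_smul]] at e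
    simpa [xx] using congrFun e i
  rw [sum_eq_single_of_mem i hT fun l _ hl => by rw [xx, Pi.single_eq_of_ne hl, zero_smul]] at e
  exact ⟨hT, by rw [e]; simp [xx]⟩

lemma good_rank (h : h21.Good T W w) : Module.finrank K W = T.card := by
  refine le_antisymm h.rank ?_
  have li : LinearIndependent K fun i : T => (⟨w i, h.mem i i.2⟩ : W) := by
    refine Fintype.linearIndependent_iff.2 fun c hc l => ?_
    have := congrFun (congrArg Subtype.val hc) l
    simp only [Submodule.coe_sum, Submodule.coe_smul, Finset.sum_apply, Pi.smul_apply,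
      smul_eq_mul, Submodule.coe_zero, Pi.zero_apply] at this
    rwa [sum_eq_single l (fun i _ hi => by
      rw [h.dual i i.2 l l.2, if_neg fun e => hi (Subtype.ext e), mul_zero]) (by simp),
      h.dual l l.2 l l.2, if_pos rfl, mul_one] at this
  simpa using li.fintype_card_le_finrank

lemma rep_PM (h : h21.Good T W w) (hX : ∀ x ∈ X, x ∈ W) {L : ℕ} {c : Fin n → ℕ}
    (hc : ∀ i ∈ T, c i < L) (hJ : ∀ i ∈ ix W, i ∈ J → c i ≠ 0) :
    lp (rep T w c) ∈ PM {W} W (X + rep T w fun _ => L) J (∑ i ∈ T, (c i : ℤ)) := by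
  refine mem_PM (Z := X + rep T w fun i => L - c i) ?_ (by simp [rep]) (le_antisymm
    (sp_le fun x hx => (Multiset.mem_add.1 hx).elim (hX x) (h.rep_mem _ x)) fun x hx => ?_)
    fun i hi h1 => mem_rep.2 ⟨i, (good_xx h h1).1, hJ i (mem_ix.2 h1) hi, (good_xx h h1).2.symm⟩
  · rw [add_left_comm, rep, rep, rep, ← sum_add_distrib]
    congr 1
    exact sum_congr rfl fun i hi => by
      rw [← Multiset.replicate_add, Nat.add_sub_cancel' (hc i hi).le]
  · rw [h.gen x hx]
    exact sum_mem fun i hi => smul_mem _ _ (mem_sp (Multiset.mem_add.2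
      (Or.inr (mem_rep.2 ⟨i, hi, Nat.sub_ne_zero_of_lt (hc i hi), rfl⟩))))

lemma base (hp : p.Prime) [CharP K p] (h : h21.Good T W w) (hX : ∀ x ∈ X, x ∈ W)
    (hd : ∀ m : ℤ, m ≤ T.card - (ix W).card → m ≤ j → d + j + (p - 1) * m < (p - 1) * T.card)
    {L : ℕ} (hL : d + (j + 1) < L) :
    Van (uu K n) T (PM {W} W (X + rep T w fun _ => L)) (fun _ _ => ⊥) j d := by
  let Ψ : MvPolynomial (Fin n) K →ₐ[K] MvPolynomial (Fin n) K :=
    aeval fun i => if i ∈ T then lf (w i) else MvPolynomial.X i
  let Θ : MvPolynomial (Fin n) K →ₐ[K] MvPolynomial (Fin n) K :=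
    aeval fun i => if i ∈ T then MvPolynomial.X i - ∑ l ∈ Tᶜ, w i l • MvPolynomial.X l
      else MvPolynomial.X i
  have a1 : ∀ i ∈ T, Ψ (MvPolynomial.X i) = lf (w i) := fun i hi => by simp [Ψ, hi]
  have a2 : Θ.comp Ψ = AlgHom.id K _ := MvPolynomial.algHom_ext fun i => by
    by_cases hi : i ∈ T
    · rw [AlgHom.comp_apply, a1 i hi, lf_apply, ← sum_add_sum_compl T, map_add, map_sum, map_sum,
        sum_eq_single_of_mem i hi fun l hl hli => by rw [h.dual i hi l hl, if_neg hli.symm]; simp,
        h.dual i hi i hi, sum_congr rfl (s₁ := Tᶜ) (g := fun l => w i l • MvPolynomial.X l)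
          fun l hl => by simp [Θ, mem_compl.1 hl]]
      simp [Θ, hi]
    · simp [Ψ, Θ, hi]
  have a3 : ∀ l ∈ T, ∀ g, Ψ (pderiv l g) = pderiv l (Ψ g) := fun l hl g => by
    induction g using MvPolynomial.induction_on with
    | C c => simp
    | add f g hf hg => simp [hf, hg]
    | mul_X f i hf =>
      have : Ψ (pderiv l (MvPolynomial.X i)) = pderiv l (Ψ (MvPolynomial.X i)) := by
        by_cases hi : i ∈ T
        · rw [a1 i hi, pderiv_lf, h.dual i hi l hl, pderiv_X, Pi.single_apply]
          split_ifs <;> simp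
        · have : i ≠ l := fun e => hi (e ▸ hl)
          simp [Ψ, hi, pderiv_X, Pi.single_eq_of_ne this]
      rw [map_mul Ψ f, Derivation.leibniz, Derivation.leibniz, map_add, smul_eq_mul, smul_eq_mul,
        smul_eq_mul, smul_eq_mul, map_mul, map_mul, hf, this]
  have a4 : ∀ Y : Multiset (Fin n → K), (∀ y ∈ Y, y ∈ W) → ∀ J, Mk W J Y →
      lp Y ∈ (SM K T (ix W) J (Multiset.card Y)).map Ψ.toLinearMap := fun Y hY => by
    induction Y using Multiset.induction_on with
    | empty =>
      refine fun J hJ => ⟨1, ⟨fun α hα => ?_, fun α _ i h1 h2 => ?_⟩, by simp [lp_zero]⟩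
      · rw [coeff_one] at hα
        have : 0 = α := by by_contra hc; exact hα (if_neg hc)
        simp [← this]
      · exact absurd (hJ i h2 (mem_ix.1 h1)) (Multiset.notMem_zero _)
    | cons y Y ih =>
      intro J hJ
      rw [lp_cons, h.gen y (hY y (Multiset.mem_cons_self _ _)), map_sum, sum_mul,
        Multiset.card_cons, Nat.cast_succ]
      refine sum_mem fun i hi => ?_
      rw [map_smul, smul_mul_assoc]
      by_cases h0 : y i = 0
      · rw [h0, zero_smul]; exact zero_mem _
      obtain ⟨g, hg, e⟩ := ih (fun z hz => hY z (Multiset.mem_cons_of_mem hz)) (J.erase i)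
        fun l hl h1 => (Multiset.mem_cons.1 (hJ l (mem_of_mem_erase hl) h1)).resolve_left
          fun h2 => ne_of_mem_erase hl (xx_eq (h2 ▸ h0))
      have := X_SM hi hg
      exact smul_mem _ _ ⟨_, ⟨this.1, fun α hα l h1 h2 => this.2 α hα l h1
        (insert_erase_subset i J h2)⟩, by rw [← e, ← a1 i hi]; exact map_mul Ψ _ _⟩
  have := Van.transport (M := PM {W} W (X + rep T w fun _ => L)) (M' := fun _ _ => ⊥)
    Ψ.toLinearMap 0 st_SM (fun i _ J _ δ x hx => by rw [(mem_bot K).1 hx]; simp)
    (fun J g hg => ?_) (fun J δ m hm => ?_) (fun J δ g _ h0 => ?_)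
    (fun i hi J _ δ g _ => (mem_bot K).2 (sub_eq_zero.2 (a3 i hi g)))
    (van_SM hp (fun i hi => (good_xx h (mem_ix.1 hi)).1) hd)
  · rwa [add_zero] at this
  · rw [g.as_sum, map_sum, add_zero]
    refine sum_mem fun α hα => ?_
    obtain ⟨b1, b2⟩ := hg.1 α (mem_support_iff.1 hα)
    have b3 : ∑ i ∈ T, (α i : ℤ) = d + (j + 1 : ℕ) := by
      rw [← b2]; exact sum_subset (subset_univ T) fun i _ hi => by simp [b1 i hi]
    have b4 : Ψ.toLinearMap (monomial α (coeff α g)) = coeff α g • lp (rep T w α) := by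
      rw [AlgHom.toLinearMap_apply, aeval_monomial, lp_rep, Finsupp.prod_fintype _ _ (by simp),
        ← Algebra.smul_def, ← prod_subset (subset_univ T) fun i _ hi => by simp [b1 i hi]]
      congr 1
      exact prod_congr rfl fun i hi => by rw [if_pos hi]
    rw [b4, ← b3]
    refine smul_mem _ _ (rep_PM h hX (fun i hi => ?_) (hg.2 α (mem_support_iff.1 hα)))
    have := single_le_sum (f := fun i => (α i : ℤ)) (fun _ _ => Int.natCast_nonneg _) hi
    omega
  · rw [add_zero] at hm
    obtain ⟨g, hg, e⟩ := (PM_le (N := (SM K T (ix W) J δ).map Ψ.toLinearMap)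
      fun Y Z b1 b2 _ b3 => by
        rw [← b2]
        exact a4 Y (fun y hy => (Multiset.mem_add.1 (b1 ▸ Multiset.mem_add.2 (Or.inl hy))).elim
          (hX y) (h.rep_mem _ y)) J b3) hm
    exact ⟨g, hg, (mem_bot K).2 (sub_eq_zero.2 e.symm)⟩
  · have := AlgHom.congr_fun a2 g
    rw [AlgHom.comp_apply, show Ψ g = 0 from (mem_bot K).1 h0, map_zero] at this
    exact this.symm

/-- The numerical hypothesis on the proper subspaces of `W`. -/
def Bd (p t : ℕ) (W : Submodule K (Fin n → K)) (X : Multiset (Fin n → K)) (j d : ℤ) : Prop :=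
  ∀ U ≤ W, U ≠ W → ∀ m : ℤ, m ≤ Module.finrank K U - (ix U).card →
    m ≤ j + t - Module.finrank K U → d + j + t - Module.finrank K U + (p - 1) * m
      < Multiset.card (X.filter (· ∉ U)) + (p - 1) * Module.finrank K U

lemma Bd.cons {t : ℕ} {j : ℤ} (h : Bd p t W X j d) : Bd p t W (e ::ₘ X) j d :=
  fun U h1 h2 m h3 h4 => by
    have := Multiset.card_le_card (Multiset.filter_le_filter (· ∉ U) (Multiset.le_cons_self X e))
    have := h U h1 h2 m h3 h4
    omega

/-- The statement proved by induction on the set of coordinates. -/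
def Stmt (K : Type) [Field K] {n : ℕ} (p : ℕ) (T : Finset (Fin n)) : Prop :=
  ∀ (W : Submodule K (Fin n → K)) (w : Fin n → Fin n → K) (X : Multiset (Fin n → K)) (j : ℕ)
    (d : ℤ), h21.Good T W w → (∀ x ∈ X, x ∈ W) → (∀ i, xx K i ∈ W → xx K i ∈ X) →
    Bd p T.card W X j d →
    (∀ m : ℤ, m ≤ T.card - (ix W).card → m ≤ j → d + j + (p - 1) * m < (p - 1) * T.card) →
    Van (uu K n) T (PM {W} W X) (fun _ _ => ⊥) j d

lemma step (ih : ∀ k ∈ T, Stmt K p (T.erase k)) (h : h21.Good T W w)
    (hX : ∀ x ∈ X, x ∈ W) (hx : ∀ i, xx K i ∈ W → xx K i ∈ X) (he : e ∈ W)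
    (hb : Bd p T.card W X (j - 1) d) :
    Van (uu K n) T (PM {W} W (e ::ₘ X)) (PM {W} W X) j d := by
  have key : ∀ 𝓖 : Finset (Submodule K (Fin n → K)), (∀ U ∈ 𝓖, Hy e W U) →
      Van (uu K n) T (PM (insert W 𝓖) W X) (PM {W} W X) j d := by
    intro 𝓖 h𝓖
    induction 𝓖 using Finset.induction_on with
    | empty => simpa using van_self
    | insert U 𝓖 hn ih' =>
      have hU := h𝓖 U (mem_insert_self _ _)
      have h' : ∀ V ∈ 𝓖, Hy e W V := fun V hV => h𝓖 V (mem_insert_of_mem hV)
      refine Van.trans uu_comm (fun _ δ => PM_mono (Set.insert_subset_insert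
        (coe_subset.2 (subset_insert _ _)))) (fun _ δ => PM_mono (by simp)) ?_ (ih' h')
      obtain ⟨k, hk, w', hw'⟩ := h.hy hU
      refine Van.filt uu_comm hk (st_PM hX (closed_hy h𝓖)) (st_PM hX (closed_hy h'))
        fun b c hbc => ?_
      have c1 : ((T.erase k).card : ℤ) = T.card - 1 := by
        have := card_erase_add_one hk; omega
      have c3 : U ≠ W := fun e' => hU.1 (e' ▸ he)
      have c4 : (j : ℤ) = b + c := by omega
      have := piece hX hx h' hU hn (ih k hk U w' (X.filter (· ∈ U)) b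
        (d + c - Multiset.card (X.filter (· ∉ U))) hw'
        (fun x hx => (Multiset.mem_filter.1 hx).2)
        (fun i hi => Multiset.mem_filter.2 ⟨hx i (hU.le hi), hi⟩)
        (fun V v1 v2 m m1 m2 => ?_) fun m m1 m2 => ?_)
      · rwa [sub_add_cancel, ← coe_insert] at this
      · have v3 := hb V (v1.trans hU.le) (fun e' => c3 (hU.le.antisymm (e' ▸ v1))) m m1
          (by omega)
        have v4 : X.filter (· ∉ V) = X.filter (· ∉ U) + (X.filter (· ∈ U)).filter (· ∉ V) := by
          conv_lhs => rw [← Multiset.filter_add_not (· ∈ U) X]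
          rw [Multiset.filter_add, add_comm, Multiset.filter_eq_self (s := X.filter (· ∉ U))
            (p := (· ∉ V)).2 fun x hx hV => (Multiset.mem_filter.1 hx).2 (v1 hV)]
        rw [v4, Multiset.card_add, c4] at v3
        rw [c1]
        push_cast at v3
        linarith
      · have v4 : (Module.finrank K U : ℤ) = T.card - 1 := by rw [← c1, good_rank hw']
        have v3 := hb U hU.le c3 m (by omega) (by omega)
        rw [c1]
        rw [c4, v4] at v3
        linarith
  rw [PM_cons (𝓕 := ((X.powerset.toFinset.image sp).filter (Hy e W) : Finset _)) he hX hx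
    (fun U hU => (mem_filter.1 hU).2) fun Z hZ h1 => mem_filter.2
      ⟨mem_image_of_mem _ (Multiset.mem_toFinset.2 (Multiset.mem_powerset.2 hZ)), h1⟩]
  exact key _ fun U hU => (mem_filter.1 hU).2

lemma le_cons (he : e ∈ W) (J : Finset (Fin n)) (δ : ℤ) :
    PM {W} W X J δ ≤ PM {W} W (e ::ₘ X) J δ :=
  PM_le fun Y Z a1 a2 a3 a4 => mem_PM (Z := e ::ₘ Z) (by rw [a1]; simp) a2
    (by rw [sp_cons]; exact closed_one _ a3 e he) a4

theorem stmt (hp : p.Prime) [CharP K p] (T : Finset (Fin n)) : Stmt K p T := by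
  induction T using Finset.strongInduction with
  | H T ih =>
    intro W w X j d h hX hx hb hd
    refine descend (Q := fun X => Van (uu K n) T (PM {W} W X) (fun _ _ => ⊥) j d)
      (B := fun X => (∀ i, xx K i ∈ W → xx K i ∈ X) ∧ Bd p T.card W X j d)
      (fun _ _ hb => ⟨fun i hi => Multiset.mem_cons_of_mem (hb.1 i hi), hb.2.cons⟩)
      (fun e he X hX hb hv => ?_) _
      (h.rep_mem fun _ => (d + (j + 1)).toNat + 1) X hX ⟨hx, hb⟩ (base hp h hX hd (by omega))
    exact Van.les uu_comm (le_cons he)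
      (step (fun k hk => ih _ (erase_ssubset hk)) h hX hb.1 he (by simpa using hb.2)) hv

theorem top_mem (hp : p.Prime) [CharP K p] (X : Multiset (Fin n → K)) (hx : ∀ i, xx K i ∈ X)
    (hb : Bd p n ⊤ X (-1) ((p - 1) * n)) (ψ : MvPolynomial (Fin n) K →ₗ[K] K)
    (h1 : ∀ i g, ψ (pderiv i g) = 0) (h2 : ψ (∏ i, lf (xx K i) ^ (p - 1)) ≠ 0) :
    ∃ Y Z, X = Y + Z ∧ (Multiset.card Y : ℤ) = (p - 1) * n ∧ sp Z = ⊤ ∧ ψ (lp Y) ≠ 0 := by
  have h : h21.Good (univ : Finset (Fin n)) (⊤ : Submodule K (Fin n → K)) (xx K) :=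
    ⟨fun _ _ => trivial, fun i _ l _ => by simp [xx, Pi.single_apply, eq_comm],
      fun x _ => pi_eq_sum_univ' x⟩
  have hp1 : ((p - 1 : ℕ) : ℤ) = p - 1 := by have := hp.one_le; omega
  have key : ¬ PM {⊤} ⊤ X ∅ ((p - 1) * n) ≤ LinearMap.ker ψ := by
    refine descend (W := ⊤) (Q := fun X => ¬ PM {⊤} ⊤ X ∅ ((p - 1) * n) ≤ LinearMap.ker ψ)
      (B := fun X => (∀ i, xx K i ∈ X) ∧ Bd p n ⊤ X (-1) ((p - 1) * n))
      (fun _ _ hb => ⟨fun i => Multiset.mem_cons_of_mem (hb.1 i), hb.2.cons⟩)
      (fun e he X hX hb hv h0 => hv fun g hg => ?_) _ (h.rep_mem fun _ => p) X (fun _ _ => trivial)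
      ⟨hx, hb⟩ fun h0 => ?_
    · have s0 : Sp (univ : Finset (Fin n)) 0 fun a => if a = ∅ then g else 0 :=
        fun a ha => if_neg fun e => ha (by simp [e])
      obtain ⟨y, -, -, a3⟩ := step (j := 0) (d := (p - 1) * n) (fun k _ => stmt hp _) h hX
        (fun i _ => hb.1 i) he (by simpa using hb.2) (fun a => if a = ∅ then g else 0)
        (fun a => by
          beta_reduce
          split_ifs with h1
          · simpa [h1] using hg
          · exact zero_mem _) s0 (by rw [s0.D0]; exact in_zero)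
      have a4 := a3 ∅
      simp only [Pi.sub_apply, if_true, empty_inter, card_empty, Nat.cast_zero, add_zero,
        DT_apply, notMem_empty, if_false, uu_apply] at a4
      have a5 := h0 a4
      simpa [map_sum, h1] using a5
    · have a1 := rep_PM h (X := X) (J := ∅) (fun _ _ => trivial) (L := p) (c := fun _ => p - 1)
        (fun _ _ => Nat.sub_lt hp.pos one_pos) fun i _ hi => absurd hi (notMem_empty i)
      rw [sum_const, card_univ, Fintype.card_fin, nsmul_eq_mul, hp1, mul_comm, lp_rep] at a1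
      exact h2 (h0 a1)
  by_contra hc
  push Not at hc
  exact key (PM_le fun Y Z a1 a2 a3 _ => hc Y Z a1 a2 a3)

lemma finish (hp : p.Prime) [CharP K p] {E : Type} [Fintype E] (v : E → Fin n → K) (t : Finset E)
    (a2 : (t.card : ℤ) = (p - 1) * n)
    (b4 : span K (Set.range fun x : (univ \ t : Finset E) => v x) = ⊤)
    (a4 : phi p (∏ c ∈ t, lf (v c)) ≠ 0) :
    ∃ f : (Fin n ⊕ (Fin (p - 1) × Fin n)) ↪ E,
      (Matrix.of fun r k : Fin n => v (f (Sum.inl k)) r).det ≠ 0 ∧
      (Matrix.of fun x y : Fin (p - 1) × Fin n => v (f (Sum.inr y)) x.2).permanent ≠ 0 := by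
  have c1 : Fintype.card (Fin (p - 1) × Fin n) = Fintype.card t := by
    have := hp.one_le
    rw [Fintype.card_prod, Fintype.card_fin, Fintype.card_fin, Fintype.card_coe]
    zify [this]
    exact a2.symm
  let e2 := Fintype.equivOfCardEq c1
  obtain ⟨κ, a, b1, b2, b3⟩ := exists_linearIndependent' K fun x : (univ \ t : Finset E) => v x
  rw [b4] at b2
  have : Finite κ := Finite.of_injective a b1
  have := Fintype.ofFinite κ
  have c2 : Fintype.card (Fin n) = Fintype.card κ := by
    rw [← Module.finrank_eq_card_basis (Module.Basis.mk b3 b2.ge)]; simp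
  let e1 := Fintype.equivOfCardEq c2
  refine ⟨⟨Sum.elim (fun k => a (e1 k)) fun y => e2 y, Function.Injective.sumElim
    (Subtype.val_injective.comp (b1.comp e1.injective)) (Subtype.val_injective.comp e2.injective)
    fun k y e => (mem_sdiff.1 (a (e1 k)).2).2 (e ▸ (e2 y).2)⟩, ?_, ?_⟩
  · rw [← Matrix.det_transpose]
    exact (det_ne_zero_iff _).2 (b3.comp e1 e1.injective)
  · refine fun h0 => mul_ne_zero (pow_ne_zero n ?_) ?_
      ((permanent_eq p fun y => v (e2 y)).symm.trans h0)
    · rw [Ne, CharP.cast_eq_zero_iff K p, hp.dvd_factorial]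
      have := hp.one_le
      omega
    · rwa [Equiv.prod_comp e2 fun c => lf (v c), prod_coe_sort t fun c => lf (v c)]

lemma chain (B : Fin n → Fin n → K) (l : Fin n) (g : MvPolynomial (Fin n) K) :
    pderiv l (aeval (fun i => lf (B i)) g)
      = ∑ i, B i l • aeval (fun i => lf (B i)) (pderiv i g) := by
  induction g using MvPolynomial.induction_on with
  | C c => simp
  | add f g hf hg => simp only [map_add, hf, hg, smul_add, sum_add_distrib]
  | mul_X f k hf =>
    simp only [map_mul, aeval_X, Derivation.leibniz, smul_eq_mul, map_add, hf, pderiv_lf, smul_add,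
      sum_add_distrib, mul_sum, mul_smul_comm, pderiv_X]
    congr 1
    rw [sum_eq_single k (fun i _ hi => by rw [Pi.single_eq_of_ne' hi]; simp) (by simp)]
    simp [smul_eq_C_mul, mul_comm]

theorem marked (hp : p.Prime) [CharP K p] {E : Type} [Fintype E] (v : E → Fin n → K)
    (b : Fin n → E) (hb : (Matrix.of fun r k : Fin n => v (b k) r).det ≠ 0)
    (h : ∀ W : Submodule K (Fin n → K), W ≠ ⊤ →
      p * (n - Module.finrank K W) + (p - 1) * min (n - Module.finrank K W - 1)
        (Module.finrank K W - {k | v (b k) ∈ W}.ncard) ≤ {e | v e ∉ W}.ncard) :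
    ∃ f : (Fin n ⊕ (Fin (p - 1) × Fin n)) ↪ E,
      (Matrix.of fun r k : Fin n => v (f (Sum.inl k)) r).det ≠ 0 ∧
      (Matrix.of fun x y : Fin (p - 1) × Fin n => v (f (Sum.inr y)) x.2).permanent ≠ 0 := by
  set B : Matrix (Fin n) (Fin n) K := Matrix.of fun k => v (b k) with hB
  have d0 : B.det ≠ 0 := by rw [← Matrix.det_transpose]; exact hb
  have i1 : B * B⁻¹ = 1 := Matrix.mul_nonsing_inv _ (Ne.isUnit d0)
  have i2 : B⁻¹ * B = 1 := Matrix.nonsing_inv_mul _ (Ne.isUnit d0)
  let A : (Fin n → K) ≃ₗ[K] (Fin n → K) := LinearEquiv.ofLinear (B⁻¹).vecMulLinear B.vecMulLinear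
    (LinearMap.ext fun x => by simp [i1]) (LinearMap.ext fun x => by simp [i2])
  have A1 : ∀ k, A (v (b k)) = xx K k := fun k => by
    have : v (b k) = A.symm (xx K k) := by
      show _ = Matrix.vecMul (Pi.single k 1) B
      rw [Matrix.single_one_vecMul]; rfl
    rw [this, A.apply_symm_apply]
  let Ψ : MvPolynomial (Fin n) K →ₐ[K] MvPolynomial (Fin n) K := aeval fun i => lf (B i)
  have A2 : ∀ x, Ψ (lf (A x)) = lf x := fun x => by
    have : x = ∑ i, A x i • B i := by
      conv_lhs => rw [← A.symm_apply_apply x]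
      exact Matrix.vecMul_eq_sum (A x) B
    conv_rhs => rw [this]
    rw [lf_apply, map_sum, map_sum]
    simp [Ψ]
  obtain ⟨Y, Z, a1, a2, a3, a4⟩ := top_mem hp (univ.val.map fun e => A (v e))
    (fun i => Multiset.mem_map.2 ⟨b i, mem_univ _, A1 i⟩) (fun U _ hU m m1 m2 => by
      have b1 := h (U.map A.symm.toLinearMap) fun e => hU (by
        simpa using congrArg (Submodule.map A.toLinearMap) e)
      have b0 : ∀ x, x ∈ U.map A.symm.toLinearMap ↔ A x ∈ U := fun x => by
        simp [Submodule.mem_map_equiv]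
      rw [LinearEquiv.finrank_map_eq] at b1
      simp only [b0, A1] at b1
      have b2 : Module.finrank K U < n := by simpa using Submodule.finrank_lt hU
      have b3 : {e | A (v e) ∉ U}.ncard
          = Multiset.card ((univ.val.map fun e => A (v e)).filter (· ∉ U)) := by
        rw [Multiset.filter_map, Multiset.card_map, Set.ncard_eq_toFinset_card',
          Set.toFinset_ofPred]
        rfl
      have b5 : {k | xx K k ∈ U}.ncard = (ix U).card := by
        rw [Set.ncard_eq_toFinset_card', Set.toFinset_ofPred]; rfl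
      rw [b3, b5] at b1
      have b6 : m ≤ (min (n - Module.finrank K U - 1) (Module.finrank K U - (ix U).card) : ℕ) := by
        omega
      have b7 := mul_le_mul_of_nonneg_left b6
        (by have := hp.one_le; omega : (0 : ℤ) ≤ p - 1)
      generalize min (n - Module.finrank K U - 1) (Module.finrank K U - (ix U).card) = μ at b1 b7
      zify [b2.le, hp.one_le] at b1
      linarith) (phi p ∘ₗ Ψ.toLinearMap) (fun k g => by
      have : Ψ (pderiv k g) = ∑ l, B⁻¹ l k • pderiv l (Ψ g) := by
        simp only [Ψ, chain, smul_sum, smul_smul]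
        rw [sum_comm]
        simp only [← sum_smul]
        rw [sum_eq_single k (fun i _ hi => ?_) (by simp)]
        · have := congrFun (congrFun i1 k) k
          rw [Matrix.mul_apply, Matrix.one_apply_eq] at this
          rw [sum_congr rfl fun l _ => mul_comm _ _, this, one_smul]
        · have := congrFun (congrFun i1 i) k
          rw [Matrix.mul_apply, Matrix.one_apply_ne hi] at this
          rw [sum_congr rfl fun l _ => mul_comm _ _, this, zero_smul]
      simp [this, phi_pderiv hp]) (by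
      simp only [LinearMap.comp_apply, AlgHom.toLinearMap_apply, map_prod, map_pow, ← A1, A2]
      exact phi_base hp _ d0)
  obtain ⟨t, -, rfl, rfl⟩ := split_map (fun e => A (v e)) univ Y Z a1
  refine finish hp v t (by rwa [Multiset.card_map, card_val] at a2) ?_ ?_
  · have b4 : span K (Set.range fun x : (univ \ t : Finset E) => A (v x)) = ⊤ := by
      rw [← a3, sp]; congr 1; ext x; simp [-sdiff_val]
    have := congrArg (Submodule.map A.symm.toLinearMap) b4
    rw [Submodule.map_span, ← Set.range_comp, Submodule.map_top, LinearEquiv.range] at this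
    simpa [Function.comp_def] using this
  · rw [lp, Multiset.map_map] at a4
    have : Ψ (∏ c ∈ t, lf (A (v c))) = ∏ c ∈ t, lf (v c) := by simp only [map_prod, A2]
    rwa [← this]

end Pool.Agent.MP_16de82_co.lg
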