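import Pool.Agent.MP_16de82_co.h21.Main

-- ======== part 0: formerly Pool.Agent.MP_16de82_co.lg.Kz
section MrgPart0

/-! The Koszul complex of commuting operators on a cube of graded modules. -/

set_option autoImplicit false

namespace Pool.Agent.MP_16de82_co.lg

open Finset

variable {K S : Type} [Field K] [AddCommGroup S] [Module K S] {n : ℕ}

/-- The sign of direction `i` at place `J`. -/
def sg (K : Type) [Field K] (i : Fin n) (J : Finset (Fin n)) : K :=
  (-1) ^ (J.filter (· < i)).card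

lemma sg_insert (i : Fin n) {l : Fin n} {J : Finset (Fin n)} (h : l ∉ J) :
    sg K i (insert l J) = (if l < i then -1 else 1) * sg K i J := by
  rw [sg, sg, filter_insert]
  split_ifs with h1
  · rw [card_insert_of_notMem fun e => h (mem_filter.1 e).1, pow_succ']
  · rw [one_mul]

lemma sg_sq (i : Fin n) (J : Finset (Fin n)) : sg K i J * sg K i J = 1 := by
  rw [sg, ← pow_add, ← two_mul, pow_mul]; simp

/-- The differential in direction `i`. -/
def Di (u : Fin n → Module.End K S) (i : Fin n) : Module.End K (Finset (Fin n) → S) where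
  toFun z J := if i ∈ J then 0 else sg K i J • u i (z (insert i J))
  map_add' z z' := by funext J; by_cases h : i ∈ J <;> simp [h]
  map_smul' c z := by funext J; by_cases h : i ∈ J <;> simp [h, smul_comm c]

lemma Di_apply (u : Fin n → Module.End K S) (i : Fin n) (z : Finset (Fin n) → S)
    (J : Finset (Fin n)) :
    Di u i z J = if i ∈ J then 0 else sg K i J • u i (z (insert i J)) := rfl

/-- The differential in the directions of `T`. -/
def DT (u : Fin n → Module.End K S) (T : Finset (Fin n)) :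
    Module.End K (Finset (Fin n) → S) := ∑ i ∈ T, Di u i

lemma DT_apply (u : Fin n → Module.End K S) (T : Finset (Fin n)) (z : Finset (Fin n) → S)
    (J : Finset (Fin n)) :
    DT u T z J = ∑ i ∈ T, if i ∈ J then 0 else sg K i J • u i (z (insert i J)) := by
  simp [DT, LinearMap.sum_apply, Finset.sum_apply, Di_apply]

variable {u : Fin n → Module.End K S}

lemma anti (h : ∀ i l, Commute (u i) (u l)) {i l : Fin n} (hil : i ≠ l) :
    Di u i * Di u l + Di u l * Di u i = 0 := by
  refine LinearMap.ext fun z => funext fun J => ?_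
  have e := LinearMap.congr_fun (h i l).eq (z (insert i (insert l J)))
  simp only [Module.End.mul_apply] at e
  simp only [LinearMap.add_apply, Module.End.mul_apply, Pi.add_apply, Di_apply, mem_insert,
    hil, hil.symm, false_or, LinearMap.zero_apply, Pi.zero_apply]
  by_cases h1 : i ∈ J
  · simp [h1]
  by_cases h2 : l ∈ J
  · simp [h2]
  simp only [h1, h2, if_false, map_smul, smul_smul, sg_insert _ h1, sg_insert _ h2,
    Finset.insert_comm l i J, e, ← add_smul]
  rcases lt_or_gt_of_ne hil with h3 | h3 <;> simp [h3, h3.not_gt, mul_comm]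

lemma sq1 (i : Fin n) : Di u i * Di u i = 0 := by
  refine LinearMap.ext fun z => funext fun J => ?_
  simp [Di_apply]

lemma DT_sq (h : ∀ i l, Commute (u i) (u l)) (T : Finset (Fin n)) (z : Finset (Fin n) → S) :
    DT u T (DT u T z) = 0 := by
  have : DT u T * DT u T = 0 := by
    induction T using Finset.induction_on with
    | empty => simp [DT]
    | insert k T hk ih =>
      have e : Di u k * DT u T + DT u T * Di u k = 0 := by
        rw [DT, mul_sum, sum_mul, ← sum_add_distrib]
        exact sum_eq_zero fun l hl => anti h fun e => hk (e ▸ hl)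
      have e2 : DT u (insert k T) = Di u k + DT u T := sum_insert hk
      rw [e2, add_mul, mul_add, mul_add, sq1, ih, zero_add, add_zero, e]
  exact LinearMap.congr_fun this z

/-- The entries of the chain lie in the right degrees of the graded modules. -/
def In (T : Finset (Fin n)) (M : Finset (Fin n) → ℤ → Submodule K S) (d : ℤ)
    (z : Finset (Fin n) → S) : Prop := ∀ J, z J ∈ M J (d + (J ∩ T).card)
/-- The chain has homological degree `j`. -/
def Sp (T : Finset (Fin n)) (j : ℕ) (z : Finset (Fin n) → S) : Prop :=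
  ∀ J, (J ∩ T).card ≠ j → z J = 0
/-- The operators lower the degree by one. -/
def St (u : Fin n → Module.End K S) (T : Finset (Fin n))
    (M : Finset (Fin n) → ℤ → Submodule K S) : Prop :=
  ∀ i ∈ T, ∀ J, i ∉ J → ∀ δ, ∀ x ∈ M (insert i J) (δ + 1), u i x ∈ M J δ
/-- The homology of `M / M'` vanishes in bidegree `(j, d)`. -/
def Van (u : Fin n → Module.End K S) (T : Finset (Fin n))
    (M M' : Finset (Fin n) → ℤ → Submodule K S) (j : ℕ) (d : ℤ) : Prop :=
  ∀ z, In T M d z → Sp T j z → In T M' d (DT u T z) →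
    ∃ y, In T M d y ∧ Sp T (j + 1) y ∧ In T M' d (z - DT u T y)

variable {T : Finset (Fin n)} {M M' M'' N : Finset (Fin n) → ℤ → Submodule K S} {j : ℕ} {d : ℤ}
  {z y : Finset (Fin n) → S}

lemma card_ins {i : Fin n} (hi : i ∈ T) {J : Finset (Fin n)} (h : i ∉ J) :
    (insert i J ∩ T).card = (J ∩ T).card + 1 := by
  rw [insert_inter_of_mem hi, card_insert_of_notMem fun e => h (mem_inter.1 e).1]

lemma In.term (hz : In T M d z) (h : St u T M) {i : Fin n} (hi : i ∈ T) (J : Finset (Fin n)) :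
    (if i ∈ J then 0 else sg K i J • u i (z (insert i J))) ∈ M J (d + (J ∩ T).card) := by
  split_ifs with h1
  · exact Submodule.zero_mem _
  · refine Submodule.smul_mem _ _ (h i hi J h1 _ _ ?_)
    have := hz (insert i J)
    rwa [card_ins hi h1, Nat.cast_succ, ← add_assoc] at this

lemma In.D (hz : In T M d z) (h : St u T M) : In T M d (DT u T z) := fun J => by
  rw [DT_apply]; exact Submodule.sum_mem _ fun i hi => hz.term h hi J
lemma In.sub (hz : In T M d z) (hy : In T M d y) : In T M d (z - y) :=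
  fun a => Submodule.sub_mem _ (hz a) (hy a)
lemma In.add (hz : In T M d z) (hy : In T M d y) : In T M d (z + y) :=
  fun a => Submodule.add_mem _ (hz a) (hy a)
lemma In.mono (hz : In T M' d z) (h : ∀ J δ, M' J δ ≤ M J δ) : In T M d z :=
  fun a => h _ _ (hz a)
lemma in_zero : In T M d (0 : Finset (Fin n) → S) := fun _ => Submodule.zero_mem _
lemma in_bot : In T (fun _ _ => (⊥ : Submodule K S)) d z ↔ z = 0 :=
  ⟨fun h => funext fun a => h a, fun h => h ▸ in_zero⟩
lemma Sp.D (hz : Sp T (j + 1) z) : Sp T j (DT u T z) := fun J hJ => by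
  rw [DT_apply]
  refine sum_eq_zero fun i hi => ?_
  split_ifs with h1
  · rfl
  · rw [hz _ (by rw [card_ins hi h1]; omega)]; simp
lemma Sp.D0 (hz : Sp T 0 z) : DT u T z = 0 := funext fun J => by
  rw [DT_apply]
  refine sum_eq_zero fun i hi => ?_
  split_ifs with h1
  · rfl
  · rw [hz _ (by rw [card_ins hi h1]; omega)]; simp
lemma Sp.sub (hz : Sp T j z) (hy : Sp T j y) : Sp T j (z - y) :=
  fun a ha => by simp [hz a ha, hy a ha]
lemma Sp.add (hz : Sp T j z) (hy : Sp T j y) : Sp T j (z + y) :=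
  fun a ha => by simp [hz a ha, hy a ha]
lemma sp_zero : Sp T j (0 : Finset (Fin n) → S) := fun _ _ => rfl

/-- Part of the long exact sequence. -/
lemma Van.les (h : ∀ i l, Commute (u i) (u l)) (hle : ∀ J δ, M' J δ ≤ M J δ)
    (h1 : Van u T M M' (j + 1) d) (h2 : Van u T M (fun _ _ => ⊥) j d) :
    Van u T M' (fun _ _ => ⊥) j d := by
  intro z hz hs hd
  obtain ⟨y, a1, a2, a3⟩ := h2 z (hz.mono hle) hs hd
  have e : z = DT u T y := sub_eq_zero.1 (in_bot.1 a3)
  obtain ⟨y', -, b2, b3⟩ := h1 y a1 a2 (e ▸ hz)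
  exact ⟨_, b3, a2.sub b2.D, in_bot.2 (by rw [map_sub, DT_sq h, sub_zero, ← e, sub_self])⟩

/-- Extensions. -/
lemma Van.trans (h : ∀ i l, Commute (u i) (u l)) (hle : ∀ J δ, M' J δ ≤ M J δ)
    (hle' : ∀ J δ, M'' J δ ≤ M' J δ)
    (h1 : Van u T M M' j d) (h2 : Van u T M' M'' j d) : Van u T M M'' j d := by
  intro z hz hs hd
  obtain ⟨y, a1, a2, a3⟩ := h1 z hz hs (hd.mono hle')
  obtain ⟨y', b1, b2, b3⟩ := h2 _ a3 (hs.sub a2.D) (by rwa [map_sub, DT_sq h, sub_zero])
  exact ⟨y + y', a1.add (b1.mono hle), a2.add b2, by rwa [map_add, ← sub_sub]⟩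

lemma van_self : Van u T M M j d := fun z hz _ _ => ⟨0, in_zero, sp_zero, by simpa using hz⟩

/-- Filtration by one coordinate. -/
lemma Van.filt (h : ∀ i l, Commute (u i) (u l)) {k : Fin n} (hk : k ∈ T) (hM : St u T M)
    (hM' : St u T M') (hv : ∀ b c, b + c = j → Van u (T.erase k) M M' b (d + c)) :
    Van u T M M' j d := by
  let χ : Finset (Fin n) → ℕ := fun J => if k ∈ J then 1 else 0
  have s2 : ∀ J, (J ∩ T).card = χ J + (J ∩ T.erase k).card := fun J => by
    rw [inter_erase]
    by_cases h1 : k ∈ J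
    · have := card_erase_add_one (mem_inter.2 ⟨h1, hk⟩)
      simp only [χ, if_pos h1]; omega
    · rw [erase_eq_of_notMem fun e => h1 (mem_inter.1 e).1]; simp [χ, h1]
  have s1 : ∀ J, d + ((J ∩ T).card : ℤ) = d + χ J + (J ∩ T.erase k).card := fun J => by
    rw [s2, Nat.cast_add, add_assoc]
  have s3 : ∀ (z : Finset (Fin n) → S) J, DT u T z J =
      (if k ∈ J then 0 else sg K k J • u k (z (insert k J))) + DT u (T.erase k) z J :=
    fun z J => by rw [DT_apply, DT_apply, ← add_sum_erase _ _ hk]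
  have s5 : ∀ i ∈ T.erase k, ∀ J, χ (insert i J) = χ J := fun i hi J => by
    simp [χ, (ne_of_mem_erase hi).symm]
  have s4 : ∀ (z : Finset (Fin n) → S) (c : ℕ) J,
      DT u (T.erase k) (fun J => if χ J = c then z J else 0) J
        = if χ J = c then DT u (T.erase k) z J else 0 := fun z c J => by
    rw [DT_apply, DT_apply]
    split_ifs with h1
    · exact sum_congr rfl fun i hi => by rw [s5 i hi, if_pos h1]
    · exact sum_eq_zero fun i hi => by rw [s5 i hi, if_neg h1]; simp
  have s6 : ∀ J, k ∉ J → χ (insert k J) = χ J + 1 := fun J h1 => by simp [χ, h1]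
  suffices H : ∀ c z, In T M d z → Sp T j z → In T M' d (DT u T z) →
      (∀ J, c ≤ χ J → z J ∈ M' J (d + (J ∩ T).card)) →
      ∃ y, In T M d y ∧ Sp T (j + 1) y ∧ In T M' d (z - DT u T y) from
    fun z hz hs hd => H (j + 1) z hz hs hd fun a ha => by
      rw [hs a (by rw [s2]; omega)]; exact Submodule.zero_mem _
  intro c
  induction c with
  | zero => exact fun z _ _ _ h4 => ⟨0, in_zero, sp_zero, fun a => by simpa using h4 a (Nat.zero_le _)⟩
  | succ c ih =>
    intro z hz hs hd h4
    by_cases hc : j < c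
    · refine ih z hz hs hd fun a ha => ?_
      rw [hs a (by rw [s2]; omega)]; exact Submodule.zero_mem _
    obtain ⟨y, a1, a2, a3⟩ := hv (j - c) c (by omega) (fun a => if χ a = c then z a else 0)
      (fun a => by
        beta_reduce
        by_cases h1 : χ a = c
        · rw [if_pos h1, ← h1, ← s1]; exact hz a
        · rw [if_neg h1]; exact Submodule.zero_mem _)
      (fun a ha => by
        beta_reduce
        by_cases h1 : χ a = c
        · rw [if_pos h1, hs a (by rw [s2]; omega)]
        · rw [if_neg h1])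
      (fun a => by
        rw [s4]
        by_cases h1 : χ a = c
        · rw [if_pos h1, ← h1, ← s1]
          have h5 := hd a
          rw [s3] at h5
          by_cases h6 : k ∈ a
          · rwa [if_pos h6, zero_add] at h5
          · rw [if_neg h6] at h5
            have h7 := h4 (insert k a) (by rw [s6 a h6]; omega)
            rw [card_ins hk h6, Nat.cast_succ, ← add_assoc] at h7
            simpa using Submodule.sub_mem _ h5
              (Submodule.smul_mem _ (sg K k a) (hM' k hk a h6 _ _ h7))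
        · rw [if_neg h1]; exact Submodule.zero_mem _)
    have b1 : In T M d fun a => if χ a = c then y a else 0 := fun a => by
      beta_reduce
      by_cases h1 : χ a = c
      · rw [if_pos h1, s1, h1]; exact a1 a
      · rw [if_neg h1]; exact Submodule.zero_mem _
    have b2 : Sp T (j + 1) fun a => if χ a = c then y a else 0 := fun a ha => by
      beta_reduce
      by_cases h1 : χ a = c
      · rw [if_pos h1, a2 a (by rw [s2] at ha; omega)]
      · rw [if_neg h1]
    obtain ⟨y', c1, c2, c3⟩ := ih _ (hz.sub (b1.D hM)) (hs.sub b2.D)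
      (by rwa [map_sub, DT_sq h, sub_zero]) fun a ha => by
        have h6 : (if k ∈ a then 0 else sg K k a • u k
            (if χ (insert k a) = c then y (insert k a) else 0)) = 0 := by
          by_cases h6 : k ∈ a
          · exact if_pos h6
          · rw [if_neg h6, if_neg (by rw [s6 a h6]; omega)]; simp
        rw [Pi.sub_apply, s3, s4, h6, zero_add]
        by_cases h1 : χ a = c
        · have := a3 a
          rw [Pi.sub_apply, if_pos h1] at this
          rwa [if_pos h1, s1, h1]
        · rw [if_neg h1, sub_zero]; exact h4 a (by omega)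
    exact ⟨_, b1.add c1, b2.add c2, by rwa [map_add, ← sub_sub]⟩

/-- Transport along an isomorphism from `N` onto `M / M'` that shifts the degree. -/
lemma Van.transport (φ : S →ₗ[K] S) (σ : ℤ) (hN : St u T N) (hM' : St u T M')
    (h1 : ∀ J, ∀ g ∈ N J (d + (j + 1 : ℕ)), φ g ∈ M J (d + (j + 1 : ℕ) + σ))
    (h2 : ∀ J δ, ∀ m ∈ M J (δ + σ), ∃ g ∈ N J δ, m - φ g ∈ M' J (δ + σ))
    (h3 : ∀ J δ, ∀ g ∈ N J δ, φ g ∈ M' J (δ + σ) → g = 0)
    (h4 : ∀ i ∈ T, ∀ J, i ∉ J → ∀ δ, ∀ g ∈ N (insert i J) (δ + 1),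
      φ (u i g) - u i (φ g) ∈ M' J (δ + σ))
    (hv : Van u T N (fun _ _ => ⊥) j d) : Van u T M M' j (d + σ) := by
  have k2 : ∀ g, In T N d g →
      In T M' (d + σ) ((fun a => φ (DT u T g a)) - DT u T fun a => φ (g a)) := fun g hg a => by
    rw [Pi.sub_apply, DT_apply, DT_apply, map_sum, ← sum_sub_distrib, add_right_comm]
    refine Submodule.sum_mem _ fun i hi => ?_
    split_ifs with h5
    · simp
    · rw [map_smul, ← smul_sub]
      refine Submodule.smul_mem _ _ (h4 i hi a h5 _ _ ?_)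
      have := hg (insert i a)
      rwa [card_ins hi h5, Nat.cast_succ, ← add_assoc] at this
  intro z hz hs hd
  have : ∀ a, ∃ g ∈ N a (d + (a ∩ T).card), (z a = 0 → g = 0) ∧
      z a - φ g ∈ M' a (d + σ + (a ∩ T).card) := fun a => by
    by_cases h0 : z a = 0
    · exact ⟨0, Submodule.zero_mem _, fun _ => rfl, by simp [h0]⟩
    · obtain ⟨g, a1, a2⟩ := h2 a _ (z a) (by rw [add_right_comm]; exact hz a)
      exact ⟨g, a1, fun e => absurd e h0, by rwa [add_right_comm]⟩
  choose g g1 g2 g3 using this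
  have g4 : In T M' (d + σ) (z - fun a => φ (g a)) := g3
  obtain ⟨y, a1, a2, a3⟩ := hv g g1 (fun a ha => g2 a (hs a ha)) (in_bot.2 (funext fun a =>
    h3 a _ _ (In.D g1 hN a) (by
      have := ((k2 g g1).add hd).sub (g4.D hM') a
      rw [add_right_comm]
      simp only [map_sub, Pi.sub_apply, Pi.add_apply] at this
      rwa [add_sub_assoc, sub_sub_cancel, sub_add_cancel] at this)))
  have e : g = DT u T y := sub_eq_zero.1 (in_bot.1 a3)
  refine ⟨fun a => φ (y a), fun a => ?_, fun a ha => by simp [a2 a ha], fun a => ?_⟩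
  · by_cases h0 : (a ∩ T).card = j + 1
    · rw [add_right_comm, h0]
      exact h1 a _ (h0 ▸ a1 a)
    · simp [a2 a h0]
  · have := g4.add (k2 y a1) a
    rw [← e] at this
    simpa using this

end Pool.Agent.MP_16de82_co.lg

end MrgPart0

-- ======== part 1: formerly Pool.Agent.MP_16de82_co.lg.Md
section MrgPart1

/-! The homology of the marked Koszul complex of a polynomial ring. -/

set_option autoImplicit false

namespace Pool.Agent.MP_16de82_co.lg

open Finset MvPolynomial
open Pool.Agent.MP_16de82_co.h21 (uu uu_apply HH nu uu_HH HH_uu HH_comm nu_one coeff_HH ST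
  st_ST HH_ST X_ST ops_uu)

variable {K : Type} [Field K] {n p : ℕ}

lemma uu_comm (i l : Fin n) : Commute (uu K n i) (uu K n l) := by
  refine LinearMap.ext fun g => MvPolynomial.ext _ _ fun m => ?_
  simp only [Module.End.mul_apply, uu_apply, coeff_pderiv, Finsupp.add_apply,
    add_right_comm m (Finsupp.single i 1)]
  by_cases h : i = l
  · rw [h]
  · simp [Finsupp.single_eq_of_ne h, Finsupp.single_eq_of_ne (Ne.symm h)]; ring

/-- The homotopy in direction `i`. -/
noncomputable def Hi (i : Fin n) (z : Finset (Fin n) → MvPolynomial (Fin n) K)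
    (J : Finset (Fin n)) : MvPolynomial (Fin n) K :=
  if i ∈ J then sg K i (J.erase i) • HH K i 1 (z (J.erase i)) else 0

lemma Hi_zero {i : Fin n} (z : Finset (Fin n) → MvPolynomial (Fin n) K) {J : Finset (Fin n)}
    (h : i ∉ J) : Hi i z J = 0 := if_neg h
lemma Hi_ins {i : Fin n} (z : Finset (Fin n) → MvPolynomial (Fin n) K) {J : Finset (Fin n)}
    (h : i ∉ J) : Hi i z (insert i J) = sg K i J • HH K i 1 (z J) := by
  rw [Hi, if_pos (mem_insert_self _ _), erase_insert h]
lemma out_or_ins (i : Fin n) (J : Finset (Fin n)) : i ∉ J ∨ ∃ J', i ∉ J' ∧ J = insert i J' := by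
  by_cases h : i ∈ J
  · exact Or.inr ⟨J.erase i, notMem_erase _ _, (insert_erase h).symm⟩
  · exact Or.inl h

lemma homot {T : Finset (Fin n)} {i : Fin n} (hi : i ∈ T)
    (z : Finset (Fin n) → MvPolynomial (Fin n) K) (hz : DT (uu K n) T z = 0) (J : Finset (Fin n))
    (m : Fin n →₀ ℕ) : coeff m ((z - DT (uu K n) T (Hi i z)) J)
      = (1 - nu K (if i ∈ J then m i else m i + 1) 1) * coeff m (z J) := by
  rw [Pi.sub_apply, DT_apply, ← add_sum_erase _ _ hi]
  rcases out_or_ins i J with h | ⟨J, h, rfl⟩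
  · rw [sum_eq_zero fun l hl => by
      rw [Hi_zero z (by simp [h, (ne_of_mem_erase hl).symm])]; simp]
    rw [if_neg h, if_neg h, Hi_ins z h, map_smul, smul_smul, sg_sq, one_smul, add_zero, coeff_sub,
      ← pow_one (uu K n i), uu_HH, sub_mul, one_mul]
  · have e := congrFun hz J
    rw [DT_apply, ← add_sum_erase _ _ hi, Pi.zero_apply, if_neg h] at e
    have e2 := congrArg (fun x => sg K i J • HH K i 1 x) e
    simp only [map_add, map_sum, map_smul, smul_add, smul_smul, sg_sq, one_smul, map_zero,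
      smul_zero, smul_sum] at e2
    rw [sum_congr rfl (g := fun l => -(sg K i J • HH K i 1
      (if l ∈ J then 0 else sg K l J • uu K n l (z (insert l J))))) fun l hl => by
        have hl' := ne_of_mem_erase hl
        by_cases h1 : l ∈ J
        · simp [h1]
        have c := LinearMap.congr_fun (HH_comm (K := K) hl'.symm 1).eq (z (insert l J))
        simp only [Module.End.mul_apply] at c
        rw [if_neg h1, if_neg (by simp [h1, hl']), Finset.insert_comm,
          Hi_ins z (by simp [h, hl'.symm]), map_smul, map_smul, smul_smul, smul_smul,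
          sg_insert _ h, sg_insert _ h1, ← neg_smul, ← c]
        congr 1
        rcases lt_or_gt_of_ne hl' with h1 | h1 <;> simp [h1, h1.not_gt, mul_comm]]
    rw [sum_neg_distrib, ← eq_neg_of_add_eq_zero_left e2, if_pos (mem_insert_self _ _),
      if_pos (mem_insert_self _ _), zero_add, coeff_sub, ← pow_one (uu K n i), HH_uu, sub_mul,
      one_mul]

/-- Homogeneous polynomials in the variables of `T`, divisible by the variables in `I ∩ J`. -/
def SM (K : Type) [Field K] {n : ℕ} (T I J : Finset (Fin n)) (δ : ℤ) :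
    Submodule K (MvPolynomial (Fin n) K) where
  carrier := {g | g ∈ ST K T δ ∧ ∀ α, coeff α g ≠ 0 → ∀ i ∈ I, i ∈ J → α i ≠ 0}
  zero_mem' := ⟨Submodule.zero_mem _, fun α h => absurd (coeff_zero α) h⟩
  add_mem' {g g'} hg hg' := ⟨Submodule.add_mem _ hg.1 hg'.1, fun α h => by
    by_cases h1 : coeff α g = 0
    · exact hg'.2 α (by simpa [h1] using h)
    · exact hg.2 α h1⟩
  smul_mem' c g hg := ⟨Submodule.smul_mem _ _ hg.1, fun α h => hg.2 α fun e => h (by simp [e])⟩

variable {T I J : Finset (Fin n)}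

lemma st_SM : St (uu K n) T (SM K T I) := fun i hi J hJ δ g hg =>
  ⟨st_ST i hi δ g hg.1, fun α h l hl hl' => by
    rw [uu_apply, coeff_pderiv] at h
    have := hg.2 _ (left_ne_zero_of_mul h) l hl (mem_insert_of_mem hl')
    rwa [Finsupp.add_apply, Finsupp.single_eq_of_ne (fun e : l = i => hJ (e ▸ hl')), add_zero]
      at this⟩

lemma shift_ne {i : Fin n} {δ : ℤ} {g : MvPolynomial (Fin n) K} (hg : g ∈ SM K T I J δ)
    {α : Fin n →₀ ℕ} (h1 : 1 ≤ α i) (h2 : coeff (α - Finsupp.single i 1) g ≠ 0) :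
    ∀ l ∈ I, l ∈ insert i J → α l ≠ 0 := fun l hl hl' => by
  rcases mem_insert.1 hl' with rfl | h3
  · omega
  · have := hg.2 _ h2 l hl h3
    rw [Finsupp.tsub_apply] at this
    omega

lemma HH_SM {i : Fin n} (hi : i ∈ T) {δ : ℤ} {g : MvPolynomial (Fin n) K}
    (hg : g ∈ SM K T I J δ) : HH K i 1 g ∈ SM K T I (insert i J) (δ + 1) :=
  ⟨by simpa using HH_ST hi 1 hg.1, fun α h => by
    rw [coeff_HH] at h
    split_ifs at h with h1
    · exact shift_ne hg h1 (right_ne_zero_of_mul h)
    · exact absurd rfl h⟩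

lemma X_SM {i : Fin n} (hi : i ∈ T) {δ : ℤ} {g : MvPolynomial (Fin n) K}
    (hg : g ∈ SM K T I J δ) : X i * g ∈ SM K T I (insert i J) (δ + 1) :=
  ⟨X_ST hi hg.1, fun α h => by
    rw [coeff_X_mul'] at h
    split_ifs at h with h1
    · exact shift_ne hg (Nat.one_le_iff_ne_zero.2 (Finsupp.mem_support_iff.1 h1)) h
    · exact absurd rfl h⟩

theorem van_SM (hp : p.Prime) [CharP K p] (hI : I ⊆ T) {j : ℕ} {d : ℤ}
    (hd : ∀ m : ℤ, m ≤ T.card - I.card → m ≤ j → d + j + (p - 1) * m < (p - 1) * T.card) :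
    Van (uu K n) T (SM K T I) (fun _ _ => ⊥) j d := by
  intro z hz hs h0
  have h0 := in_bot.1 h0
  have key : ∀ T' ⊆ T, ∃ y, In T (SM K T I) d y ∧ Sp T (j + 1) y ∧ ∀ a α,
      coeff α ((z - DT (uu K n) T y) a) ≠ 0 → ∀ i ∈ T',
        p ∣ if i ∈ a then α i else α i + 1 := by
    intro T' hT'
    induction T' using Finset.induction_on with
    | empty => exact ⟨0, in_zero, sp_zero, fun _ _ _ i hi => absurd hi (notMem_empty i)⟩
    | insert k T' hk ih =>
      obtain ⟨y, a1, a2, a3⟩ := ih ((subset_insert _ _).trans hT')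
      have hkT : k ∈ T := hT' (mem_insert_self _ _)
      have b1 := hz.sub (a1.D st_SM)
      have b2 := hs.sub (a2.D (u := uu K n))
      refine ⟨y + Hi k (z - DT (uu K n) T y), a1.add fun a => ?_, a2.add fun a ha => ?_,
        fun a α h => ?_⟩
      · rcases out_or_ins k a with h | ⟨b, h, rfl⟩
        · rw [Hi_zero _ h]; exact Submodule.zero_mem _
        · rw [Hi_ins _ h, card_ins hkT h, Nat.cast_succ, ← add_assoc]
          exact Submodule.smul_mem _ _ (HH_SM hkT (b1 b))
      · rcases out_or_ins k a with h | ⟨b, h, rfl⟩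
        · exact Hi_zero _ h
        · rw [Hi_ins _ h, b2 b (by rw [card_ins hkT h] at ha; omega)]; simp
      · rw [map_add, ← sub_sub, homot hkT _ (by rw [map_sub, h0, DT_sq uu_comm, sub_zero])] at h
        refine forall_mem_insert _ _ _ |>.2 ⟨?_, a3 a α (right_ne_zero_of_mul h)⟩
        have h1 := left_ne_zero_of_mul h
        rw [nu_one] at h1
        by_contra h3
        rw [if_neg fun e => h3 ((CharP.cast_eq_zero_iff K p _).1 e)] at h1
        exact h1 (sub_self _)
  obtain ⟨y, a1, a2, a3⟩ := key T subset_rfl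
  refine ⟨y, a1, a2, in_bot.2 (funext fun a => MvPolynomial.ext _ _ fun α => ?_)⟩
  by_contra h
  have h1 := a3 a α h
  have h3 : (a ∩ T).card = j := by
    by_contra hj
    exact h (by rw [hs.sub (a2.D (u := uu K n)) a hj]; rfl)
  obtain ⟨h4, h6⟩ := hz.sub (a1.D st_SM) a
  have h4 := (h4 α h).2
  have h5 : ∑ i ∈ T, ((p - 1 : ℤ) + (if i ∈ a then 1 else 0)
      - p * if i ∈ a \ I then 1 else 0) ≤ ∑ i, (α i : ℤ) := by
    refine (sum_le_sum fun i hi => ?_).trans
      (sum_le_sum_of_subset_of_nonneg (subset_univ T) fun _ _ _ => Int.natCast_nonneg _)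
    have h7 := h1 i hi
    by_cases h8 : i ∈ a
    · rw [if_pos h8] at h7
      by_cases h9 : i ∈ I
      · have := Nat.le_of_dvd (Nat.pos_of_ne_zero (h6 α h i h9 h8)) h7
        simp only [h8, h9, mem_sdiff, if_true, not_true, and_false, if_false]
        omega
      · simp [h8, h9]
    · rw [if_neg h8] at h7
      have := Nat.le_of_dvd (Nat.succ_pos _) h7
      simp only [h8, mem_sdiff, false_and, if_false]
      omega
  rw [sum_sub_distrib, sum_add_distrib, ← mul_sum, sum_boole, sum_boole, filter_mem_eq_inter,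
    filter_mem_eq_inter, inter_comm T a, sum_const, nsmul_eq_mul, h4, h3] at h5
  have c1 : (T ∩ (a \ I)).card ≤ j := h3 ▸ card_le_card fun i hi => by
    simp only [mem_inter, mem_sdiff] at hi ⊢; exact ⟨hi.2.1, hi.1⟩
  have c2 : (T ∩ (a \ I)).card ≤ (T \ I).card := card_le_card fun i hi => by
    simp only [mem_inter, mem_sdiff] at hi ⊢; exact ⟨hi.1, hi.2.2⟩
  have c3 := card_sdiff_add_card_eq_card hI
  have := hd (T ∩ (a \ I)).card (by omega) (by omega)
  have c4 : ((T ∩ (a \ I)).card : ℤ) ≤ j := by omega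
  linarith

end Pool.Agent.MP_16de82_co.lg

end MrgPart1

-- ======== part 2: formerly Pool.Agent.MP_16de82_co.lg.Zm
section MrgPart2

/-! Spaces spanned by marked products of linear forms with a spanning complement. -/

set_option autoImplicit false

namespace Pool.Agent.MP_16de82_co.lg

open Finset MvPolynomial Submodule Classical
open Pool.Agent.MP_16de82_co.h21 (uu uu_apply lp sp Hy lp_cons lp_add lp_zero sp_cons mem_sp sp_le
  closed_one closed_hy tau tau_deg tau_top tau_const)

variable {K : Type} [Field K] {n p : ℕ}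

/-- The coordinate vectors. -/
def xx (K : Type) [Field K] {n : ℕ} (i : Fin n) : Fin n → K := Pi.single i 1

/-- `Y` contains the coordinate vectors with index in `J` that lie in `W`. -/
def Mk (W : Submodule K (Fin n → K)) (J : Finset (Fin n)) (Y : Multiset (Fin n → K)) : Prop :=
  ∀ i ∈ J, xx K i ∈ W → xx K i ∈ Y

/-- Marked products of `δ` forms of `X` such that the other vectors span a member of `𝓕`. -/
noncomputable def PM (𝓕 : Set (Submodule K (Fin n → K))) (W : Submodule K (Fin n → K))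
    (X : Multiset (Fin n → K)) (J : Finset (Fin n)) (δ : ℤ) :
    Submodule K (MvPolynomial (Fin n) K) :=
  span K {g | ∃ Y Z, X = Y + Z ∧ (Multiset.card Y : ℤ) = δ ∧ sp Z ∈ 𝓕 ∧ Mk W J Y ∧ g = lp Y}

variable {e x y : Fin n → K} {W U U' : Submodule K (Fin n → K)} {X Y Z : Multiset (Fin n → K)}
  {𝓕 : Set (Submodule K (Fin n → K))} {δ : ℤ} {T J : Finset (Fin n)}

lemma mem_PM (h1 : X = Y + Z) (h2 : (Multiset.card Y : ℤ) = δ) (h3 : sp Z ∈ 𝓕) (h4 : Mk W J Y) :
    lp Y ∈ PM 𝓕 W X J δ := subset_span ⟨Y, Z, h1, h2, h3, h4, rfl⟩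
lemma PM_le {N : Submodule K (MvPolynomial (Fin n) K)}
    (h : ∀ Y Z, X = Y + Z → (Multiset.card Y : ℤ) = δ → sp Z ∈ 𝓕 → Mk W J Y → lp Y ∈ N) :
    PM 𝓕 W X J δ ≤ N :=
  span_le.2 fun _ ⟨Y, Z, h1, h2, h3, h4, e⟩ => e ▸ h Y Z h1 h2 h3 h4
lemma PM_mono {𝓕' : Set (Submodule K (Fin n → K))} (h : 𝓕 ⊆ 𝓕') :
    PM 𝓕 W X J δ ≤ PM 𝓕' W X J δ :=
  PM_le fun _ _ h1 h2 h3 h4 => mem_PM h1 h2 (h h3) h4

lemma xx_eq {i l : Fin n} (h : xx K l i ≠ 0) : l = i := by
  by_contra hc
  exact h (Pi.single_eq_of_ne' hc _)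

lemma Mk.drop {i : Fin n} (hi : i ∉ J) (h : Mk W (insert i J) (y ::ₘ Y)) (hy : y i ≠ 0) :
    Mk W J Y := fun l hl h1 => by
  rcases Multiset.mem_cons.1 (h l (mem_insert_of_mem hl) h1) with h2 | h2
  · exact absurd (xx_eq (h2 ▸ hy) ▸ hl) hi
  · exact h2

lemma der_mem (i : Fin n) (N : Submodule K (MvPolynomial (Fin n) K)) (Y : Multiset (Fin n → K))
    (g : MvPolynomial (Fin n) K) (h : ∀ y Y', Y = y ::ₘ Y' → y i ≠ 0 → lp Y' * g ∈ N) :
    pderiv i (lp Y) * g ∈ N := by
  induction Y using Multiset.induction_on generalizing g with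
  | empty => simp [lp_zero]
  | cons y Y ih =>
    rw [lp_cons, Derivation.leibniz, pderiv_lf, smul_eq_mul, smul_eq_mul, add_mul]
    refine add_mem ?_ ?_
    · rw [mul_comm (lf y), mul_assoc]
      refine ih _ fun y' Y' e h0 => ?_
      rw [← mul_assoc, mul_comm (lp Y'), ← lp_cons]
      exact h y' _ (by rw [e, Multiset.cons_swap]) h0
    · rw [mul_comm (lp Y), mul_assoc, ← smul_eq_C_mul]
      by_cases h0 : y i = 0
      · rw [h0, zero_smul]; exact zero_mem _
      · exact smul_mem _ _ (h y Y rfl h0)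

lemma st_PM (hX : ∀ x ∈ X, x ∈ W) (h : ∀ U ∈ 𝓕, ∀ y ∈ W, U ⊔ span K {y} ∈ 𝓕) :
    St (uu K n) T (PM 𝓕 W X) := fun i _ J hJ δ g hg => by
  refine (PM_le (N := (PM 𝓕 W X J δ).comap (uu K n i)) fun Y Z h1 h2 h3 h4 => ?_) hg
  have := der_mem i (PM 𝓕 W X J δ) Y 1 fun y Y' e h0 => by
    rw [mul_one]
    refine mem_PM (Z := y ::ₘ Z) (by rw [h1, e]; simp) (by rw [e] at h2; simpa using h2) ?_
      (Mk.drop hJ (e ▸ h4) h0)
    rw [sp_cons]
    exact h _ h3 y (hX y (by rw [h1, e]; simp))
  rwa [mul_one] at this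

lemma Mk.up (hx : ∀ i, xx K i ∈ W → xx K i ∈ X) (h : Mk U J Y) :
    Mk W J (X.filter (· ∉ U) + Y) := fun l hl h1 => by
  by_cases h2 : xx K l ∈ U
  · exact Multiset.mem_add.2 (Or.inr (h l hl h2))
  · exact Multiset.mem_add.2 (Or.inl (Multiset.mem_filter.2 ⟨hx l h1, h2⟩))

/-- One more hyperplane: the quotient is the space of the restricted multiset. -/
lemma piece (hX : ∀ x ∈ X, x ∈ W) (hx : ∀ i, xx K i ∈ W → xx K i ∈ X)
    (h𝓕 : ∀ U ∈ 𝓕, Hy e W U) (hU : Hy e W U) (hn : U ∉ 𝓕) {j : ℕ} {d : ℤ}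
    (hv : Van (uu K n) T (PM {U} U (X.filter (· ∈ U))) (fun _ _ => ⊥) j d) :
    Van (uu K n) T (PM (insert W (insert U 𝓕)) W X) (PM (insert W 𝓕) W X) j
      (d + Multiset.card (X.filter (· ∉ U))) := by
  have hs : X.filter (· ∉ U) + X.filter (· ∈ U) = X := by
    rw [add_comm]; exact Multiset.filter_add_not _ _
  obtain ⟨η, h1, h2⟩ := hU.eta
  refine Van.transport (LinearMap.mulLeft K (lp (X.filter (· ∉ U)))) _
    (st_PM (W := U) (fun x hx => (Multiset.mem_filter.1 hx).2) closed_one)
    (st_PM hX (closed_hy h𝓕)) (fun J g hg => ?_) (fun J δ m hm => ?_) (fun J δ g hg h0 => ?_)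
    (fun i _ J hJ δ g hg => ?_) hv
  · refine mem_comap.1 (PM_le (fun Y Z a1 a2 a3 a4 => ?_) hg)
    rw [mem_comap, LinearMap.mulLeft_apply, ← lp_add]
    exact mem_PM (Z := Z) (by rw [add_assoc, ← a1, hs])
      (by rw [← a2, Multiset.card_add, Nat.cast_add, add_comm]) (Or.inr (Or.inl a3)) (a4.up hx)
  · have := (PM_le (N := (PM {U} U (X.filter (· ∈ U)) J δ).map
      (LinearMap.mulLeft K (lp (X.filter (· ∉ U)))) ⊔
        PM (insert W 𝓕) W X J (δ + Multiset.card (X.filter (· ∉ U)))) fun Y Z a1 a2 a3 a5 => ?_) hm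
    · obtain ⟨_, ⟨g, hg, rfl⟩, b, hb, rfl⟩ := Submodule.mem_sup.1 this
      exact ⟨g, hg, by rwa [add_sub_cancel_left]⟩
    · by_cases a4 : sp Z = U
      · have z1 : ∀ z ∈ Z, z ∈ U := fun z hz => a4 ▸ mem_sp hz
        have z2 : X.filter (· ∉ U) = Y.filter (· ∉ U) := by
          rw [a1, Multiset.filter_add, Multiset.filter_eq_nil.2 fun z hz => not_not.2 (z1 z hz),
            add_zero]
        have z3 : Y.filter (· ∉ U) + Y.filter (· ∈ U) = Y := by
          rw [add_comm]; exact Multiset.filter_add_not _ _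
        refine mem_sup_left ⟨lp (Y.filter (· ∈ U)), mem_PM (Z := Z) ?_ ?_ a4 fun l hl h3 =>
          Multiset.mem_filter.2 ⟨a5 l hl (hU.le h3), h3⟩, ?_⟩
        · rw [a1, Multiset.filter_add, Multiset.filter_eq_self.2 z1]
        · have := congrArg Multiset.card z3
          rw [Multiset.card_add, ← z2] at this
          omega
        · rw [LinearMap.mulLeft_apply, z2, ← lp_add, z3]
      · exact mem_sup_right (mem_PM a1 a2 (a3.imp_right fun a => a.resolve_left a4) a5)
  · let Λ : MvPolynomial (Fin n) K →ₗ[K] MvPolynomial (Fin n) K :=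
      ((Polynomial.lcoeff _ (Multiset.card (X.filter (· ∉ U)))).restrictScalars K) ∘ₗ
        (tau η).toLinearMap
    have b1 : Λ _ = 0 := (PM_le (N := LinearMap.ker Λ) fun Y Z a1 a2 a3 _ => by
      have : ¬ sp Z ≤ U := fun hle => by
        rcases a3 with a3 | a3
        · exact hU.1 (hle (a3 ▸ hU.mem))
        · exact hn (hU.max (h𝓕 _ a3) hle ▸ a3)
      obtain ⟨z, hz, hz'⟩ : ∃ z ∈ Z, z ∉ U := by
        by_contra hc; push Not at hc; exact this (sp_le hc)
      refine Polynomial.coeff_eq_zero_of_natDegree_lt ((tau_deg η Y).trans_lt ?_)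
      rw [Multiset.filter_congr (q := (· ∉ U)) fun y hy =>
        not_congr (h2 y (hX y (by rw [a1]; simp [hy]))), a1, Multiset.filter_add,
        Multiset.card_add]
      exact Nat.lt_add_of_pos_right (Multiset.card_pos_iff_exists_mem.2
        ⟨z, Multiset.mem_filter.2 ⟨hz, hz'⟩⟩)) h0
    have b2 : tau η g = Polynomial.C g := (PM_le (N := LinearMap.eqLocus (tau η).toLinearMap
      (Polynomial.CAlgHom (R := K)).toLinearMap) fun Y Z a1 _ _ _ => tau_const η Y fun y hy => by
        have : y ∈ X.filter (· ∈ U) := by rw [a1]; simp [hy]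
        rw [Multiset.mem_filter] at this
        exact (h2 y (hX y this.1)).2 this.2) hg
    have b0 : ∀ h, Λ h = (tau η h).coeff (Multiset.card (X.filter (· ∉ U))) := fun _ => rfl
    rw [b0, LinearMap.mulLeft_apply, map_mul, b2, Polynomial.coeff_mul_C, tau_top] at b1
    refine (mul_eq_zero.1 b1).resolve_left fun b3 => ?_
    rw [C_eq_zero, Multiset.prod_eq_zero_iff, Multiset.mem_map] at b3
    obtain ⟨y, hy, b4⟩ := b3
    rw [Multiset.mem_filter] at hy
    exact hy.2 ((h2 y (hX y hy.1)).1 b4)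
  · rw [LinearMap.mulLeft_apply, LinearMap.mulLeft_apply, uu_apply, uu_apply, Derivation.leibniz,
      smul_eq_mul, smul_eq_mul, sub_add_cancel_left, mul_comm g]
    refine neg_mem ?_
    rw [← LinearMap.mulLeft_apply K]
    refine mem_comap.1 (PM_le (fun Y Z a1 a2 a3 a6 => ?_) hg)
    rw [mem_comap, LinearMap.mulLeft_apply]
    refine der_mem i _ _ _ fun y Y' a4 h0 => ?_
    have a5 : y ∈ X.filter (· ∉ U) := by rw [a4]; simp
    rw [Multiset.mem_filter] at a5
    rw [← lp_add]
    refine mem_PM (Z := y ::ₘ Z) ?_ ?_ (Or.inl ?_) (Mk.drop hJ ?_ h0)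
    · rw [← hs, a1, a4]; simp [add_assoc]
    · rw [a4]; simp only [Multiset.card_add, Multiset.card_cons]; push_cast; omega
    · rw [sp_cons, show sp Z = U from a3, hU.exch (hX y a5.1) a5.2]
    · rw [← Multiset.cons_add, ← a4]; exact a6.up hx

/-- Adding a vector is the same as allowing the hyperplanes that miss it. -/
lemma PM_cons (he : e ∈ W) (hX : ∀ x ∈ X, x ∈ W) (hx : ∀ i, xx K i ∈ W → xx K i ∈ X)
    (h1 : ∀ U ∈ 𝓕, Hy e W U) (h2 : ∀ Z ≤ X, Hy e W (sp Z) → sp Z ∈ 𝓕) :
    PM {W} W (e ::ₘ X) = PM (insert W 𝓕) W X := by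
  funext J δ
  refine le_antisymm (PM_le fun Y Z a1 a2 a3 a7 => ?_) (PM_le fun Y Z a1 a2 a3 a7 => ?_)
  · have aux : ∀ Y Z, X = Y + Z → (Multiset.card Y : ℤ) = δ → sp Z ⊔ span K {e} = W → Mk W J Y →
        lp Y ∈ PM (insert W 𝓕) W X J δ := fun Y Z b1 b2 b3 b5 => by
      refine mem_PM b1 b2 ?_ b5
      by_cases b4 : e ∈ sp Z
      · exact Or.inl (by rwa [sup_eq_left.2 ((span_singleton_le_iff_mem _ _).2 b4)] at b3)
      · exact Or.inr (h2 Z (by rw [b1]; exact Multiset.le_add_left _ _) ⟨b4, b3⟩)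
    have a3 : sp Z = W := a3
    by_cases a4 : e ∈ Z
    · obtain ⟨Z', rfl⟩ := Multiset.exists_cons_of_mem a4
      rw [Multiset.add_cons, Multiset.cons_inj_right] at a1
      exact aux Y Z' a1 a2 (by rw [← sp_cons, a3]) a7
    · have a5 : e ∈ Y := (Multiset.mem_add.1 (a1 ▸ Multiset.mem_cons_self e X)).resolve_right a4
      obtain ⟨Y', rfl⟩ := Multiset.exists_cons_of_mem a5
      rw [Multiset.cons_add, Multiset.cons_inj_right] at a1
      have a8 : Mk W J Y' := fun l hl h3 => by
        rcases Multiset.mem_cons.1 (a7 l hl h3) with h4 | h4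
        · exact (Multiset.mem_add.1 (a1 ▸ hx l h3)).resolve_right (h4 ▸ a4)
        · exact h4
      have a6 : e ∈ span K (Z.toFinset : Set (Fin n → K)) := by
        rw [← a3] at he
        exact span_mono (fun z hz => Multiset.mem_toFinset.2 hz) he
      obtain ⟨f, -, hf⟩ := Submodule.mem_span_finset.1 a6
      rw [lp_cons, ← hf, map_sum, sum_mul]
      refine sum_mem fun x hx => ?_
      rw [map_smul, smul_mul_assoc]
      by_cases f0 : f x = 0
      · rw [f0, zero_smul]; exact zero_mem _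
      refine smul_mem _ _ ?_
      obtain ⟨Z', hZ⟩ := Multiset.exists_cons_of_mem (Multiset.mem_toFinset.1 hx)
      rw [← lp_cons]
      refine aux _ Z' (by rw [a1, hZ]; simp) (by simpa using a2) (le_antisymm (sup_le
        (sp_le fun z hz => hX z (by rw [a1, hZ]; simp [hz]))
        ((span_singleton_le_iff_mem _ _).2 he)) ?_)
        fun l hl h3 => Multiset.mem_cons_of_mem (a8 l hl h3)
      rw [← a3, hZ, sp_cons]
      refine sup_le le_sup_left ((span_singleton_le_iff_mem _ _).2 ((smul_mem_iff _ f0).1 ?_))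
      rw [← add_sum_erase _ _ hx] at hf
      rw [eq_sub_of_add_eq hf]
      refine sub_mem (mem_sup_right (mem_span_singleton_self e))
        (mem_sup_left (sum_mem fun z hz => smul_mem _ _ (mem_sp ?_)))
      have := Multiset.mem_toFinset.1 (mem_of_mem_erase hz)
      rw [hZ, Multiset.mem_cons] at this
      exact this.resolve_left (ne_of_mem_erase hz)
  · refine mem_PM (Z := e ::ₘ Z) (by rw [a1]; simp) a2 ?_ a7
    rw [sp_cons]
    rcases a3 with a3 | a3
    · exact closed_one _ a3 e he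
    · exact (h1 _ a3).2

end Pool.Agent.MP_16de82_co.lg

end MrgPart2

-- marker of a merged file
example : 731051 + 176757 = 731051 + 176757 := rfl
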